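import Mathlib

/-!
MP_842c30_nt, Q1 (negated form): there are infinitely many positive integers `n`, not powers of ten,
such that `N_r(n) = 10 C_r(n) + 1` is composite for every `r ≥ 1`. The proof starts from `n = 104040`.

If `10 n = a ^ 2` and `10 n + 1 - 10 ^ d = b ^ 2`, where `n` has the even number `d` of digits, then
`(10 ^ d - 1) N_r(n) = (a 10 ^ (d r / 2) - b) (a 10 ^ (d r / 2) + b)`.
-/

set_option autoImplicit false

namespace Pool.Agent.Results.MP_842c30_nt.RepeatedThenOneComposite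

/-- `C_r(n)`: the integer whose decimal expansion is that of `n` written `r` times in a row;
`(Nat.digits 10 n).length` is the number `d(n)` of decimal digits of `n`. -/
def C (r n : ℕ) : ℕ := n * ∑ i ∈ Finset.range r, 10 ^ ((Nat.digits 10 n).length * i)

/-- `N_r(n) = 10 C_r(n) + 1`: the integer obtained from `C_r(n)` by appending the digit `1`. -/
def N (r n : ℕ) : ℕ := 10 * C r n + 1

theorem key (a b Y X n r q : ℕ) (hX : X = Y ^ 2) (hY : 1 < Y) (hab : a ^ 2 + 1 = b ^ 2 + X)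
    (hn : 10 * n = a ^ 2) (hb1 : 1 < b) (hb : b < Y) (hr : 1 ≤ r)
    (hq : (X - 1) * q = 10 * n * (X ^ r - 1) + (X - 1)) : ¬ q.Prime := by
  intro hp
  have haY : Y < a := by
    have : Y ^ 2 < a ^ 2 := by subst hX; nlinarith
    exact lt_of_pow_lt_pow_left₀ 2 (by omega) this
  have hX1 : 1 < X := by subst hX; nlinarith
  have hXr : 1 ≤ X ^ r := Nat.one_le_pow _ _ (by omega)
  have hYr : Y ≤ Y ^ r := by
    calc Y = Y ^ 1 := (pow_one Y).symm
      _ ≤ Y ^ r := Nat.pow_le_pow_right (by omega) hr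
  have hbig : X - 1 < a * Y ^ r - b := by
    have h1 : (Y + 1) * Y ≤ a * Y ^ r := Nat.mul_le_mul haY hYr
    have h2 : X = Y * Y := by rw [hX, sq]
    have h3 : (Y + 1) * Y = Y * Y + Y := by ring
    omega
  have hXY : X ^ r = Y ^ r * Y ^ r := by rw [hX, ← pow_mul, mul_comm, pow_mul, sq]
  -- the product formula
  have hprod : (X - 1) * q = (a * Y ^ r - b) * (a * Y ^ r + b) := by
    have hle : b ≤ a * Y ^ r := by omega
    zify [hXr, hX1.le, hle] at hq ⊢
    have e1 : (a : ℤ) ^ 2 + 1 = (b : ℤ) ^ 2 + X := by exact_mod_cast hab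
    have e2 : (10 : ℤ) * n = (a : ℤ) ^ 2 := by exact_mod_cast hn
    have e3 : (X : ℤ) ^ r = (Y : ℤ) ^ r * (Y : ℤ) ^ r := by exact_mod_cast hXY
    rw [hq, e2, e3]
    linear_combination -e1
  have hpos : 0 < X - 1 := by omega
  have hdvd : q ∣ (a * Y ^ r - b) * (a * Y ^ r + b) := ⟨X - 1, by rw [← hprod, mul_comm]⟩
  rcases (Nat.Prime.dvd_mul hp).1 hdvd with h | h
  · obtain ⟨m, hm⟩ := h
    have h1 : (X - 1) * q = q * (m * (a * Y ^ r + b)) := by rw [hprod, hm]; ring
    have h2 : X - 1 = m * (a * Y ^ r + b) := by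
      have := hp.pos
      apply Nat.eq_of_mul_eq_mul_left this
      rw [← h1]; ring
    have hm0 : 0 < m := Nat.pos_of_ne_zero (by rintro rfl; simp at h2; omega)
    have h3 : a * Y ^ r + b ≤ m * (a * Y ^ r + b) := Nat.le_mul_of_pos_left _ hm0
    omega
  · obtain ⟨m, hm⟩ := h
    have h1 : (X - 1) * q = q * (m * (a * Y ^ r - b)) := by rw [hprod, hm]; ring
    have h2 : X - 1 = m * (a * Y ^ r - b) := by
      have := hp.pos
      apply Nat.eq_of_mul_eq_mul_left this
      rw [← h1]; ring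
    have hm0 : 0 < m := Nat.pos_of_ne_zero (by rintro rfl; simp at h2; omega)
    have h3 : a * Y ^ r - b ≤ m * (a * Y ^ r - b) := Nat.le_mul_of_pos_left _ hm0
    omega

theorem geom (x r : ℕ) : (x - 1) * ∑ i ∈ Finset.range r, x ^ i = x ^ r - 1 := by
  rw [mul_comm]
  rcases Nat.eq_zero_or_pos x with h | h
  · subst h
    rcases Nat.eq_zero_or_pos r with h' | h'
    · subst h'; simp
    · rw [zero_pow (by omega)]; simp
  · zify [h, Nat.one_le_pow r x h]
    exact geom_sum_mul (x : ℤ) r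

theorem exists_n (j : ℕ) : ∃ n : ℕ, 10 ^ j ≤ n ∧ 0 < n ∧ (∀ m : ℕ, n ≠ 10 ^ m) ∧
    ∀ r : ℕ, 1 ≤ r → 1 < N r n ∧ ¬ (N r n).Prime := by
  -- `Y = 1000 ^ (2 j + 1)`
  obtain ⟨Y, hYdef⟩ : ∃ Y : ℕ, Y = 1000 ^ (2 * j + 1) := ⟨_, rfl⟩
  have hY1000 : 1000 ∣ Y := by rw [hYdef]; exact dvd_pow_self _ (by omega)
  have hYpos : 0 < Y := by rw [hYdef]; positivity
  have hYge : 1000 ≤ Y := Nat.le_of_dvd hYpos hY1000
  obtain ⟨P, hP⟩ : 999 ∣ Y - 1 := by
    have := Nat.sub_dvd_pow_sub_pow 1000 1 (2 * j + 1)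
    simpa [hYdef] using this
  obtain ⟨Q, hQ⟩ : 1001 ∣ Y + 1 := by
    have := Odd.nat_add_dvd_pow_add_pow 1000 1 (n := 2 * j + 1) ⟨j, rfl⟩
    simpa [hYdef] using this
  obtain ⟨y, hy⟩ := hY1000
  obtain ⟨a', ha'⟩ : 20 ∣ 819 * P + 1221 * Q := by omega
  obtain ⟨b, hb⟩ : 2 ∣ 1221 * Q - 819 * P := by omega
  obtain ⟨n, hn⟩ : ∃ n : ℕ, n = 10 * a' ^ 2 := ⟨_, rfl⟩
  obtain ⟨a, ha⟩ : ∃ a : ℕ, a = 10 * a' := ⟨_, rfl⟩
  have hab1 : a + b = 1221 * Q := by omega
  have hab2 : a = b + 819 * P := by omega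
  have hab : a ^ 2 + 1 = b ^ 2 + Y ^ 2 := by
    have h1 : 999 * P + 1 = Y := by omega
    have h2 : 1001 * Q = Y + 1 := by omega
    zify at *
    have h3 : (a : ℤ) ^ 2 - (b : ℤ) ^ 2 = (819 * P) * (1221 * Q) := by
      rw [← hab1]
      have : (819 : ℤ) * P = a - b := by linarith
      rw [this]; ring
    have h4 : ((819 : ℤ) * P) * (1221 * Q) = (999 * P) * (1001 * Q) := by ring
    have h5 : (999 : ℤ) * P = Y - 1 := by linarith
    rw [h4, h5, h2] at h3
    linear_combination h3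
  have hb1 : 1 < b := by omega
  have hbY : b < Y := by omega
  have haY : a < 3 * Y := by omega
  have hYa : Y < a := by omega
  have h10n : 10 * n = a ^ 2 := by rw [hn, ha]; ring
  have hYY : Y ^ 2 = 10 ^ (6 * (2 * j + 1)) := by
    rw [hYdef, show (1000 : ℕ) = 10 ^ 3 by norm_num, ← pow_mul, ← pow_mul]
    congr 1; ring
  have hlen : (Nat.digits 10 n).length = 6 * (2 * j + 1) := by
    have h0 : n ≠ 0 := by
      have : 0 < a' := by omega
      rw [hn]; positivity
    rw [Nat.length_digits 10 n (by norm_num) h0]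
    have hlow : 10 ^ (6 * (2 * j + 1) - 1) ≤ n := by
      have e : 10 * 10 ^ (6 * (2 * j + 1) - 1) = 10 ^ (6 * (2 * j + 1)) := by
        rw [← pow_succ']; congr 1
      have : Y ^ 2 ≤ a ^ 2 := Nat.pow_le_pow_left hYa.le 2
      rw [← h10n, hYY, ← e] at this
      omega
    have hup : n < 10 ^ (6 * (2 * j + 1)) := by
      have : a ^ 2 < (3 * Y) ^ 2 := Nat.pow_lt_pow_left haY (by norm_num)
      rw [← h10n, mul_pow, hYY] at this
      omega
    have := (Nat.log_eq_iff (b := 10) (m := 6 * (2 * j + 1) - 1) (n := n)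
      (Or.inl (by omega))).2 ⟨hlow, by
        have e : 6 * (2 * j + 1) - 1 + 1 = 6 * (2 * j + 1) := by omega
        rw [e]; exact hup⟩
    rw [this]; omega
  have hn0 : 0 < n := by
    have : 0 < a' := by omega
    rw [hn]; positivity
  refine ⟨n, ?_, hn0, ?_, ?_⟩
  · -- size
    have h1 : 10 ^ (6 * (2 * j + 1)) < 10 * n := by
      rw [h10n, ← hYY]; exact Nat.pow_lt_pow_left hYa (by norm_num)
    have h2 : 10 * 10 ^ j ≤ 10 ^ (6 * (2 * j + 1)) := by
      rw [← pow_succ']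
      exact Nat.pow_le_pow_right (by norm_num) (by omega)
    omega
  · -- not a power of ten
    intro m hm
    have h1 : (Nat.digits 10 n).length = m + 1 := by
      rw [hm, Nat.length_digits 10 _ (by norm_num) (by positivity), Nat.log_pow (by norm_num)]
    have h2 : 10 * n = Y ^ 2 := by
      rw [hm, hYY, ← pow_succ', ← h1, hlen]
    rw [h10n] at h2
    have : Y ^ 2 < a ^ 2 := Nat.pow_lt_pow_left hYa (by norm_num)
    omega
  · intro r hr
    have hsum : ∑ i ∈ Finset.range r, 10 ^ ((Nat.digits 10 n).length * i) =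
        ∑ i ∈ Finset.range r, (Y ^ 2) ^ i := by
      apply Finset.sum_congr rfl
      intro i _
      rw [hlen, hYY, ← pow_mul]
    have hN : N r n = 10 * (n * ∑ i ∈ Finset.range r, (Y ^ 2) ^ i) + 1 := by
      rw [N, C, hsum]
    constructor
    · rw [hN]
      have : 0 < ∑ i ∈ Finset.range r, (Y ^ 2) ^ i := by
        apply Finset.sum_pos
        · intro i _; positivity
        · exact ⟨0, Finset.mem_range.2 (by omega)⟩
      have : 0 < n * ∑ i ∈ Finset.range r, (Y ^ 2) ^ i := Nat.mul_pos hn0 this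
      omega
    · apply key a b Y (Y ^ 2) n r (N r n) rfl (by omega) hab h10n hb1 hbY hr
      rw [hN]
      have := geom (Y ^ 2) r
      calc (Y ^ 2 - 1) * (10 * (n * ∑ i ∈ Finset.range r, (Y ^ 2) ^ i) + 1)
          = 10 * n * ((Y ^ 2 - 1) * ∑ i ∈ Finset.range r, (Y ^ 2) ^ i) + (Y ^ 2 - 1) := by ring
        _ = _ := by rw [this]

/-- There are infinitely many positive integers `n` which are not powers of ten such that, for every
`r ≥ 1`, the number `N_r(n)` is greater than `1` and not prime. In particular it is not true that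
every positive `n` that is not a power of ten has some `r ≥ 1` with `N_r(n)` prime. -/
theorem result :
    {n : ℕ | 0 < n ∧ (∀ m : ℕ, n ≠ 10 ^ m) ∧
      ∀ r : ℕ, 1 ≤ r → 1 < N r n ∧ ¬ (N r n).Prime}.Infinite := by
  rw [Set.infinite_iff_exists_gt]
  intro a
  obtain ⟨n, h1, h2, h3, h4⟩ := exists_n (a + 1)
  refine ⟨n, ⟨h2, h3, h4⟩, ?_⟩
  have : a + 1 < 10 ^ (a + 1) := Nat.lt_pow_self (by norm_num)
  omega

end Pool.Agent.Results.MP_842c30_nt.RepeatedThenOneComposite
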